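import Pool.Agent.Helper12.NK.St
import Pool.Agent.Helper35.PM.M_MIN

/-!
# Project NK, module INT: two adjacent new vertices in one face

A new vertex `w` is joined to the first `k + 1` corners of a face of a plane map (`star`); the rest
of the face together with `w` is again a face. This is done twice.
-/

set_option autoImplicit false

namespace Pool.Agent.Helper90.NK

open Pool.Agent.Helper12.NK
open Pool.Agent.Helper35.PM (Rot PMap Pl)
open Equiv Equiv.Perm

section star

variable {V D : Type} (M : PMap V D) (e0 : D) (k m : ℕ)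

/-- the `t`-th dart of the face -/
private def ff (t : ℕ) : D := (M.φ ^ t) e0

private theorem ff_succ (t : ℕ) : ff M e0 (t + 1) = M.φ (ff M e0 t) := by
  unfold ff
  rw [pow_succ', Perm.mul_apply]

/-- the hypotheses on the face and the new vertex -/
private structure Hy (w : V) : Prop where
  hk : k < m
  hm : ff M e0 m = e0
  hmin : ∀ j, 0 < j → j < m → ff M e0 j ≠ e0
  hw : ∀ d, M.t d ≠ w

variable {M e0 k m}

private theorem ff_inj {w : V} (h : Hy M e0 k m w) {s t : ℕ} (hs : s < m) (ht : t < m)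
    (he : ff M e0 s = ff M e0 t) : s = t := by
  have key : ∀ s t, s < t → t < m → ff M e0 s ≠ ff M e0 t := by
    intro s t hst htm heq
    have h1 : (M.φ ^ s) ((M.φ ^ (t - s)) e0) = (M.φ ^ s) e0 := by
      rw [← Perm.mul_apply, ← pow_add, Nat.add_sub_cancel' hst.le]
      exact heq.symm
    exact h.hmin (t - s) (by omega) (by omega) ((M.φ ^ s).injective h1)
  rcases lt_trichotomy s t with h1 | h1 | h1
  · exact absurd he (key s t h1 ht)
  · exact h1
  · exact absurd he.symm (key t s h1 hs)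

variable (M e0 k)

open Classical in
/-- exchange the new darts at the corners with the darts before the corners -/
private noncomputable def sg : D ⊕ (Fin (k + 1) ⊕ Fin (k + 1)) → D ⊕ (Fin (k + 1) ⊕ Fin (k + 1))
  | Sum.inl d => if h : ∃ t : Fin (k + 1), M.r d = ff M e0 t then Sum.inr (Sum.inl h.choose)
      else Sum.inl d
  | Sum.inr (Sum.inl t) => Sum.inl (M.r.symm (ff M e0 t))
  | Sum.inr (Sum.inr t) => Sum.inr (Sum.inr t)

open Classical in
private theorem sg_inl (d : D) : sg M e0 k (Sum.inl d) =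
    if h : ∃ t : Fin (k + 1), M.r d = ff M e0 t then Sum.inr (Sum.inl h.choose)
      else Sum.inl d := rfl

variable {M e0 k}

private theorem sg_c {w : V} (h : Hy M e0 k m w) {d : D} (t : Fin (k + 1))
    (hd : M.r d = ff M e0 t) : sg M e0 k (Sum.inl d) = Sum.inr (Sum.inl t) := by
  have hex : ∃ t : Fin (k + 1), M.r d = ff M e0 t := ⟨t, hd⟩
  rw [sg_inl, dif_pos hex]
  have h1 : ff M e0 hex.choose = ff M e0 t := hex.choose_spec.symm.trans hd
  have h2 : (hex.choose : ℕ) = t :=
    ff_inj h (by have := hex.choose.2; have := h.hk; omega) (by have := t.2; have := h.hk; omega) h1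
  congr 2
  exact Fin.ext h2

private theorem sg_o {d : D} (hd : ∀ t : Fin (k + 1), M.r d ≠ ff M e0 t) :
    sg M e0 k (Sum.inl d) = Sum.inl d := by
  rw [sg_inl, dif_neg]
  rintro ⟨t, ht⟩
  exact hd t ht

private theorem sg_inv {w : V} (h : Hy M e0 k m w) : Function.Involutive (sg M e0 k) := by
  rintro (d | t | t)
  · by_cases hex : ∃ t : Fin (k + 1), M.r d = ff M e0 t
    · obtain ⟨t, ht⟩ := hex
      rw [sg_c h t ht]
      show Sum.inl (M.r.symm (ff M e0 t)) = Sum.inl d
      rw [← ht, Equiv.symm_apply_apply]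
    · have h1 : ∀ t : Fin (k + 1), M.r d ≠ ff M e0 t := fun t ht => hex ⟨t, ht⟩
      rw [sg_o h1, sg_o h1]
  · show sg M e0 k (Sum.inl (M.r.symm (ff M e0 t))) = _
    exact sg_c h t (Equiv.apply_symm_apply _ _)
  · rfl

/-- the new rotation -/
private noncomputable def rr {w : V} (h : Hy M e0 k m w) : Perm (D ⊕ (Fin (k + 1) ⊕ Fin (k + 1))) :=
  (Equiv.sumCongr M.r (Equiv.sumCongr (Equiv.refl _) (Equiv.subRight (1 : Fin (k + 1))))) *
    (sg_inv h).toPerm

private theorem rr_c {w : V} (h : Hy M e0 k m w) {d : D} (t : Fin (k + 1))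
    (hd : M.r d = ff M e0 t) : rr h (Sum.inl d) = Sum.inr (Sum.inl t) := by
  unfold rr
  rw [Perm.mul_apply]
  show (Equiv.sumCongr M.r (Equiv.sumCongr (Equiv.refl _) (Equiv.subRight (1 : Fin (k + 1)))))
    (sg M e0 k (Sum.inl d)) = _
  rw [sg_c h t hd]
  rfl

private theorem rr_o {w : V} (h : Hy M e0 k m w) {d : D} (hd : ∀ t : Fin (k + 1), M.r d ≠ ff M e0 t) :
    rr h (Sum.inl d) = Sum.inl (M.r d) := by
  unfold rr
  rw [Perm.mul_apply]
  show (Equiv.sumCongr M.r (Equiv.sumCongr (Equiv.refl _) (Equiv.subRight (1 : Fin (k + 1)))))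
    (sg M e0 k (Sum.inl d)) = _
  rw [sg_o hd]
  rfl

private theorem rr_b {w : V} (h : Hy M e0 k m w) (t : Fin (k + 1)) :
    rr h (Sum.inr (Sum.inl t)) = Sum.inl (ff M e0 t) := by
  unfold rr
  rw [Perm.mul_apply]
  show Sum.inl (M.r (M.r.symm (ff M e0 t))) = _
  rw [Equiv.apply_symm_apply]

private theorem rr_g {w : V} (h : Hy M e0 k m w) (t : Fin (k + 1)) :
    rr h (Sum.inr (Sum.inr t)) = Sum.inr (Sum.inr (t - 1)) := rfl

private theorem zmod2_swap (a b c : ZMod 2) (h : a = b + c) : b = a + c := by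
  revert h; revert a b c; decide

/-- planarity of the new map -/
private theorem rr_pl {w : V} (h : Hy M e0 k m w) :
    Pl (rr h) (Sum.map M.ι Sum.swap) := by
  classical
  intro x u hx hu
  have hkm := h.hk
  -- values at the new vertex
  obtain ⟨gN, hgN⟩ : ∃ gN : ℕ → ZMod 2, gN = fun t =>
      if ht : t < k + 1 then u (Sum.inr (Sum.inr ⟨t, ht⟩)) else u (Sum.inr (Sum.inr (Fin.last k))) :=
    ⟨_, rfl⟩
  obtain ⟨bN, hbN⟩ : ∃ bN : ℕ → ZMod 2, bN = fun t =>
      if ht : t < k + 1 then x (Sum.inr (Sum.inr ⟨t, ht⟩)) else 0 := ⟨_, rfl⟩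
  have gN1 : ∀ t : Fin (k + 1), gN t = u (Sum.inr (Sum.inr t)) := by
    intro t; rw [hgN]; simp only [t.2, dif_pos]
  have bN1 : ∀ t : Fin (k + 1), bN t = x (Sum.inr (Sum.inr t)) := by
    intro t; rw [hbN]; simp only [t.2, dif_pos]
  have gN2 : ∀ t : ℕ, k ≤ t → gN t = u (Sum.inr (Sum.inr (Fin.last k))) := by
    intro t ht
    by_cases h1 : t < k + 1
    · have h2 : t = k := by omega
      rw [hgN]
      simp only [h1, dif_pos]
      congr 3
      exact Fin.ext h2
    · rw [hgN]; simp only [h1, dif_neg, not_false_eq_true]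
  have bN2 : ∀ t : ℕ, k < t → bN t = 0 := by
    intro t ht
    rw [hbN]
    have h1 : ¬ t < k + 1 := by omega
    simp only [h1, dif_neg, not_false_eq_true]
  have ug : ∀ t : Fin (k + 1), u (Sum.inr (Sum.inr (t - 1))) = u (Sum.inr (Sum.inr t)) +
      x (Sum.inr (Sum.inr t)) := fun t => by rw [← rr_g h, hu]
  have rel1 : ∀ s : ℕ, gN (s + 1) = gN s + bN (s + 1) := by
    intro s
    by_cases h1 : s + 1 < k + 1
    · have h2 := ug ⟨s + 1, h1⟩
      have h3 : (⟨s + 1, h1⟩ : Fin (k + 1)) - 1 = ⟨s, by omega⟩ := by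
        apply Fin.ext
        rw [Fin.coe_sub_one, if_neg]
        · simp
        · intro h4; exact absurd (congrArg Fin.val h4) (by simp)
      rw [h3] at h2
      have h4 := gN1 ⟨s, by omega⟩
      have h5 := gN1 ⟨s + 1, h1⟩
      have h6 := bN1 ⟨s + 1, h1⟩
      change gN s = _ at h4
      change gN (s + 1) = _ at h5
      change bN (s + 1) = _ at h6
      rw [h4, h5, h6]
      exact zmod2_swap _ _ _ h2
    · rw [gN2 (s + 1) (by omega), gN2 s (by omega), bN2 (s + 1) (by omega), add_zero]
  have rel2 : gN 0 = gN (m - 1) + bN 0 := by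
    have h2 := ug 0
    have h3 : (0 : Fin (k + 1)) - 1 = Fin.last k := by
      apply Fin.ext
      rw [Fin.coe_sub_one, if_pos rfl]
      rfl
    rw [h3] at h2
    have h4 := gN1 0
    have h6 := bN1 0
    change gN 0 = _ at h4
    change bN 0 = _ at h6
    rw [h4, h6, gN2 (m - 1) (by omega)]
    exact zmod2_swap _ _ _ h2
  -- functions on the old darts
  obtain ⟨Ga, hGa⟩ : ∃ Ga : (ℕ → ZMod 2) → D → ZMod 2, Ga = fun g d =>
      if hd : ∃ t, t < m ∧ ff M e0 t = d then g hd.choose else 0 := ⟨_, rfl⟩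
  have Ga1 : ∀ (g : ℕ → ZMod 2) (t : ℕ), t < m → Ga g (ff M e0 t) = g t := by
    intro g t ht
    have hex : ∃ s, s < m ∧ ff M e0 s = ff M e0 t := ⟨t, ht, rfl⟩
    rw [hGa]
    simp only [hex, dif_pos]
    rw [ff_inj h hex.choose_spec.1 ht hex.choose_spec.2]
  have Ga0 : ∀ (g : ℕ → ZMod 2) (d : D), (∀ t, t < m → ff M e0 t ≠ d) → Ga g d = 0 := by
    intro g d hd
    have hex : ¬ ∃ s, s < m ∧ ff M e0 s = d := by
      rintro ⟨s, h1, h2⟩; exact hd s h1 h2
    rw [hGa]
    simp only [hex, dif_neg, not_false_eq_true]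
  have key : ∀ d, Ga gN (M.φ d) = Ga gN d + Ga bN (M.φ d) := by
    intro d
    by_cases hd : ∃ t, t < m ∧ ff M e0 t = d
    · obtain ⟨t, ht, rfl⟩ := hd
      rw [← ff_succ]
      by_cases h1 : t + 1 < m
      · rw [Ga1 _ _ h1, Ga1 _ _ ht, Ga1 _ _ h1, rel1]
      · have h2 : t + 1 = m := by omega
        have h3 : ff M e0 (t + 1) = ff M e0 0 := by rw [h2, h.hm]; rfl
        rw [h3, Ga1 _ 0 (by omega), Ga1 _ _ ht, Ga1 _ 0 (by omega)]
        have h4 : t = m - 1 := by omega
        rw [h4]; exact rel2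
    · have h1 : ∀ t, t < m → ff M e0 t ≠ d := fun t h1 h2 => hd ⟨t, h1, h2⟩
      have h2 : ∀ t, t < m → ff M e0 t ≠ M.φ d := by
        intro t ht h2
        rcases Nat.eq_zero_or_pos t with h3 | h3
        · subst h3
          have h4 : ff M e0 0 = M.φ (ff M e0 (m - 1)) := by
            rw [← ff_succ, Nat.sub_add_cancel (by omega), h.hm]; rfl
          exact h1 (m - 1) (by omega) (M.φ.injective (h4.symm.trans h2))
        · have h4 : ff M e0 t = M.φ (ff M e0 (t - 1)) := by
            rw [← ff_succ, Nat.sub_add_cancel h3]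
          exact h1 (t - 1) (by omega) (M.φ.injective (h4.symm.trans h2))
      rw [Ga0 _ _ h1, Ga0 _ _ h2, Ga0 _ _ h2, add_zero]
  have xb : ∀ t : Fin (k + 1), x (Sum.inr (Sum.inl t)) = x (Sum.inr (Sum.inr t)) :=
    fun t => (hx (Sum.inr (Sum.inl t))).symm
  have Bo : ∀ d, (∀ t : Fin (k + 1), M.r d ≠ ff M e0 t) → Ga bN (M.r d) = 0 := by
    intro d hd
    by_cases h1 : ∃ t, t < m ∧ ff M e0 t = M.r d
    · obtain ⟨t, ht, h2⟩ := h1
      rw [← h2, Ga1 _ _ ht]
      apply bN2
      by_contra h3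
      exact hd ⟨t, by omega⟩ h2.symm
    · exact Ga0 _ _ (fun t ht h2 => h1 ⟨t, ht, h2⟩)
  have ustep : ∀ d, u (Sum.inl (M.r d)) = u (Sum.inl d) + x (Sum.inl d) + Ga bN (M.r d) := by
    intro d
    by_cases hd : ∃ t : Fin (k + 1), M.r d = ff M e0 t
    · obtain ⟨t, ht⟩ := hd
      have h1 := hu (Sum.inl d)
      rw [rr_c h t ht] at h1
      have h2 := hu (Sum.inr (Sum.inl t))
      rw [rr_b h t] at h2
      rw [ht, h2, h1, Ga1 _ _ (by have := t.2; omega), bN1, xb]
    · have h0 : ∀ t : Fin (k + 1), M.r d ≠ ff M e0 t := fun t ht => hd ⟨t, ht⟩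
      have h1 := hu (Sum.inl d)
      rw [rr_o h h0] at h1
      rw [h1, Bo d h0, add_zero]
  have hrφ : ∀ d, M.r d = M.φ (M.ι d) := fun d => by rw [M.φ_apply, M.inv]
  obtain ⟨Z, hZ1, hZ2⟩ := M.pl (fun d => x (Sum.inl d) + Ga gN d + Ga gN (M.ι d))
    (fun d => u (Sum.inl d) + Ga gN d)
    (by
      intro d
      have h1 : x (Sum.inl (M.ι d)) = x (Sum.inl d) := hx (Sum.inl d)
      simp only [M.inv d, h1]
      ring)
    (by
      intro d
      have h1 := key (M.ι d)
      rw [← hrφ] at h1
      simp only [ustep, h1]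
      have h2 := Pool.Agent.Helper35.PM.zadd_self (Ga bN (M.r d))
      have h3 := Pool.Agent.Helper35.PM.zadd_self (Ga gN d)
      linear_combination h2 - h3)
  have hZφ : ∀ d, Z (M.φ d) = Z d := by
    intro d
    rw [M.φ_apply, hZ1, hZ2]
    have h1 : x (Sum.inl (M.ι d)) = x (Sum.inl d) := hx (Sum.inl d)
    simp only [M.inv d, h1]
    have h2 := Pool.Agent.Helper35.PM.zadd_self (x (Sum.inl d) + Ga gN d + Ga gN (M.ι d))
    linear_combination h2
  have hZf : ∀ t, Z (ff M e0 t) = Z e0 := by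
    intro t
    induction t with
    | zero => rfl
    | succ t ih => rw [ff_succ, hZφ, ih]
  refine ⟨Sum.elim (fun d => Ga gN d + Z d) (Sum.elim (fun t => gN t + Z e0 + bN t)
    (fun t => gN t + Z e0)), ?_, ?_⟩
  · rintro (d | t | t)
    · by_cases hd : ∃ t : Fin (k + 1), M.r d = ff M e0 t
      · obtain ⟨t, ht⟩ := hd
        rw [rr_c h t ht]
        show gN t + Z e0 + bN t = Ga gN d + Z d + x (Sum.inl d)
        have h1 := key (M.ι d)
        rw [← hrφ, ht, Ga1 _ _ (by have := t.2; omega), Ga1 _ _ (by have := t.2; omega)] at h1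
        have h2 := hZ1 d
        rw [ht, hZf] at h2
        have h3 := Pool.Agent.Helper35.PM.zadd_self (Ga gN (M.ι d))
        have h4 := Pool.Agent.Helper35.PM.zadd_self (bN t)
        rw [h1, h2]
        linear_combination h3 + h4
      · have h0 : ∀ t : Fin (k + 1), M.r d ≠ ff M e0 t := fun t ht => hd ⟨t, ht⟩
        rw [rr_o h h0]
        show Ga gN (M.r d) + Z (M.r d) = Ga gN d + Z d + x (Sum.inl d)
        have h1 := key (M.ι d)
        rw [← hrφ, Bo d h0, add_zero] at h1
        have h3 := Pool.Agent.Helper35.PM.zadd_self (Ga gN (M.ι d))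
        rw [h1, hZ1]
        linear_combination h3
    · rw [rr_b]
      show Ga gN (ff M e0 t) + Z (ff M e0 t) = gN t + Z e0 + bN t + x (Sum.inr (Sum.inl t))
      rw [Ga1 _ _ (by have := t.2; omega), hZf, xb, ← bN1]
      have h4 := Pool.Agent.Helper35.PM.zadd_self (bN t)
      linear_combination -h4
    · rw [rr_g]
      show gN (t - 1 : Fin (k + 1)) + Z e0 = gN t + Z e0 + x (Sum.inr (Sum.inr t))
      rw [gN1, gN1, ug]
      ring
  · rintro (d | t | t)
    · show Ga gN (M.ι d) + Z (M.ι d) = Ga gN d + Z d + x (Sum.inl d)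
      rw [hZ2]
      have h3 := Pool.Agent.Helper35.PM.zadd_self (Ga gN (M.ι d))
      linear_combination h3
    · show gN t + Z e0 = gN t + Z e0 + bN t + x (Sum.inr (Sum.inl t))
      rw [xb, ← bN1]
      have h4 := Pool.Agent.Helper35.PM.zadd_self (bN t)
      linear_combination -h4
    · show gN t + Z e0 + bN t = gN t + Z e0 + x (Sum.inr (Sum.inr t))
      rw [bN1]

/-- one step of the old rotation is one or two steps of the new one -/
private theorem rr_step {w : V} (h : Hy M e0 k m w) (d : D) :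
    (rr h).SameCycle (Sum.inl d) (Sum.inl (M.r d)) := by
  by_cases hd : ∃ t : Fin (k + 1), M.r d = ff M e0 t
  · obtain ⟨t, ht⟩ := hd
    refine ⟨2, ?_⟩
    show ((rr h) ^ (2 : ℕ)) (Sum.inl d) = _
    rw [pow_succ', pow_one, Perm.mul_apply, rr_c h t ht, rr_b, ht]
  · have h0 : ∀ t : Fin (k + 1), M.r d ≠ ff M e0 t := fun t ht => hd ⟨t, ht⟩
    refine ⟨1, ?_⟩
    rw [zpow_one, rr_o h h0]

private theorem rr_old [Finite D] {w : V} (h : Hy M e0 k m w) {d d' : D} (hd : M.t d = M.t d') :
    (rr h).SameCycle (Sum.inl d) (Sum.inl d') := by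
  obtain ⟨n, hn⟩ := (M.trans d d' hd).exists_nat_pow_eq
  have key : ∀ n : ℕ, (rr h).SameCycle (Sum.inl d) (Sum.inl ((M.r ^ n) d)) := by
    intro n
    induction n with
    | zero => exact SameCycle.refl _ _
    | succ n ih =>
      rw [pow_succ', Perm.mul_apply]
      exact ih.trans (rr_step h _)
  rw [← hn]
  exact key n

private theorem rr_new {w : V} (h : Hy M e0 k m w) (t : Fin (k + 1)) :
    (rr h).SameCycle (Sum.inl (ff M e0 t)) (Sum.inr (Sum.inl t)) := by
  refine SameCycle.symm ⟨1, ?_⟩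
  rw [zpow_one, rr_b]

private theorem rr_top {w : V} (h : Hy M e0 k m w) (s t : Fin (k + 1)) :
    (rr h).SameCycle (Sum.inr (Sum.inr s)) (Sum.inr (Sum.inr t)) := by
  have key : ∀ n : ℕ, ∀ hn : n < k + 1,
      (rr h).SameCycle (Sum.inr (Sum.inr 0)) (Sum.inr (Sum.inr ⟨n, hn⟩)) := by
    intro n
    induction n with
    | zero => intro hn; exact SameCycle.refl _ _
    | succ n ih =>
      intro hn
      refine (ih (by omega)).trans (SameCycle.symm ⟨1, ?_⟩)
      rw [zpow_one, rr_g]
      congr 2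
      apply Fin.ext
      rw [Fin.coe_sub_one, if_neg]
      · simp
      · intro h4; exact absurd (congrArg Fin.val h4) (by simp)
  exact (key s s.2).symm.trans (key t t.2)

/-- the plane map with the new vertex `w` joined to the corners `0, ..., k` of the face -/
private noncomputable def star [Finite D] {w : V} (h : Hy M e0 k m w) :
    PMap V (D ⊕ (Fin (k + 1) ⊕ Fin (k + 1))) where
  r := rr h
  ι := Sum.map M.ι Sum.swap
  inv := by
    rintro (d | t | t)
    · show Sum.inl (M.ι (M.ι d)) = Sum.inl d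
      rw [M.inv]
    · rfl
    · rfl
  nofix := by
    rintro (d | t | t) h1
    · exact M.nofix d (Sum.inl_injective h1)
    · exact absurd (Sum.inr_injective h1) (by simp)
    · exact absurd (Sum.inr_injective h1) (by simp)
  t := Sum.elim M.t (Sum.elim (fun t => M.t (ff M e0 t)) (fun _ => w))
  t_r := by
    rintro (d | t | t)
    · by_cases hd : ∃ t : Fin (k + 1), M.r d = ff M e0 t
      · obtain ⟨t, ht⟩ := hd
        rw [rr_c h t ht]
        show M.t (ff M e0 t) = M.t d
        rw [← ht, M.t_r]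
      · have h0 : ∀ t : Fin (k + 1), M.r d ≠ ff M e0 t := fun t ht => hd ⟨t, ht⟩
        rw [rr_o h h0]
        exact M.t_r d
    · rw [rr_b]; rfl
    · rw [rr_g]; rfl
  trans := by
    rintro (d | t | t) (d' | t' | t') ht
    · exact rr_old h ht
    · exact (rr_old h ht).trans (rr_new h t')
    · exact absurd ht (h.hw d)
    · exact (rr_new h t).symm.trans (rr_old h ht)
    · exact ((rr_new h t).symm.trans (rr_old h ht)).trans (rr_new h t')
    · exact absurd ht (h.hw _)
    · exact absurd ht.symm (h.hw d')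
    · exact absurd ht.symm (h.hw _)
    · exact rr_top h t t'
  pl := rr_pl h

private theorem star_φ_c [Finite D] {w : V} (h : Hy M e0 k m w) {d : D} (t : Fin (k + 1))
    (hd : M.φ d = ff M e0 t) : (star h).φ (Sum.inl d) = Sum.inr (Sum.inl t) :=
  rr_c h (d := M.ι d) t hd

private theorem star_φ_o [Finite D] {w : V} (h : Hy M e0 k m w) {d : D}
    (hd : ∀ t : Fin (k + 1), M.φ d ≠ ff M e0 t) : (star h).φ (Sum.inl d) = Sum.inl (M.φ d) :=
  rr_o h (d := M.ι d) hd

private theorem star_φ_b [Finite D] {w : V} (h : Hy M e0 k m w) (t : Fin (k + 1)) :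
    (star h).φ (Sum.inr (Sum.inl t)) = Sum.inr (Sum.inr (t - 1)) := rfl

private theorem star_φ_g [Finite D] {w : V} (h : Hy M e0 k m w) (t : Fin (k + 1)) :
    (star h).φ (Sum.inr (Sum.inr t)) = Sum.inl (ff M e0 t) := rr_b h t

/-- the new face, first part -/
private theorem face1 [Finite D] {w : V} (h : Hy M e0 k m w) :
    ∀ j, k + j < m → ff (star h) (Sum.inl (ff M e0 k)) j = Sum.inl (ff M e0 (k + j)) := by
  intro j
  induction j with
  | zero => intro _; rfl
  | succ j ih =>
    intro hj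
    rw [ff_succ, ih (by omega), star_φ_o h, ← ff_succ]
    · rfl
    · intro t ht
      rw [← ff_succ] at ht
      have h1 := ff_inj h (by omega) (by have := t.2; have := h.hk; omega) ht
      have := t.2
      omega

private theorem face2 [Finite D] {w : V} (h : Hy M e0 k m w) :
    ff (star h) (Sum.inl (ff M e0 k)) (m - k) = Sum.inr (Sum.inl 0) := by
  have hk := h.hk
  have h1 : m - k = (m - 1 - k) + 1 := by omega
  rw [h1, ff_succ, face1 h (m - 1 - k) (by omega), star_φ_c h 0]
  rw [← ff_succ]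
  have h2 : k + (m - 1 - k) + 1 = m := by omega
  rw [h2, h.hm]
  rfl

private theorem face3 [Finite D] {w : V} (h : Hy M e0 k m w) :
    ff (star h) (Sum.inl (ff M e0 k)) (m - k + 1) = Sum.inr (Sum.inr (Fin.last k)) := by
  rw [ff_succ, face2, star_φ_b]
  congr 2
  apply Fin.ext
  rw [Fin.coe_sub_one, if_pos rfl]
  rfl

private theorem face4 [Finite D] {w : V} (h : Hy M e0 k m w) :
    ff (star h) (Sum.inl (ff M e0 k)) (m - k + 2) = Sum.inl (ff M e0 k) := by
  rw [ff_succ, face3, star_φ_g]
  rfl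

/-- the second new vertex -/
private theorem hy2 [Finite D] {w w' : V} (h : Hy M e0 k m w) (hw : ∀ d, M.t d ≠ w') (hne : w ≠ w') :
    Hy (star h) (Sum.inl (ff M e0 k)) (m - k + 1) (m - k + 2) w' where
  hk := by omega
  hm := face4 h
  hmin := by
    intro j hj hj2 heq
    have hk := h.hk
    by_cases h1 : k + j < m
    · rw [face1 h j h1] at heq
      have h2 := ff_inj h h1 hk (Sum.inl_injective heq)
      omega
    · by_cases h2 : j = m - k
      · rw [h2, face2] at heq
        exact absurd heq (by simp)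
      · have h3 : j = m - k + 1 := by omega
        rw [h3, face3] at heq
        exact absurd heq (by simp)
  hw := by
    rintro (d | t | t)
    · exact hw d
    · exact hw _
    · exact hne

end star

/-- INT -/
theorem hINT : StINT := by
  classical
  intro V _ H R m c u v A B hc huv hu hv hA hB hN
  have := Fintype.ofFinite V
  obtain ⟨hm3, hinj, hface⟩ := hc
  obtain ⟨i, k, hkm, hAk, hBk⟩ := hN
  have : NeZero m := ⟨by omega⟩
  -- the face starting at `c i`
  obtain ⟨e0, e1, he0, -, -⟩ := hface i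
  have hfst : ∀ t : ℕ, (ff R.map e0 t).toProd = (c (i + t), c (i + t + 1)) := by
    intro t
    induction t with
    | zero =>
      show e0.toProd = _
      rw [he0, Nat.cast_zero, add_zero]
    | succ t ih =>
      rw [ff_succ]
      obtain ⟨e, e', h1, h2, h3⟩ := hface (i + t)
      have h4 : ff R.map e0 t = e := SimpleGraph.Dart.ext _ _ (ih.trans h1.symm)
      rw [h4]
      have h5 : R.map.φ e = e' := h3
      rw [h5, h2]
      push_cast
      rw [add_assoc i (t : ZMod m) 1]
  have hcast : ∀ t : ℕ, t < m → i + (t : ZMod m) = i → t = 0 := by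
    intro t ht h
    have h1 : (t : ZMod m) = 0 := by
      have := add_left_cancel (a := i) (h.trans (add_zero i).symm)
      exact this
    rw [ZMod.natCast_eq_zero_iff] at h1
    exact Nat.eq_zero_of_dvd_of_lt h1 ht
  have hi : i + (m : ZMod m) = i := by rw [ZMod.natCast_self, add_zero]
  -- the number of the first arc
  obtain ⟨k1, hk1, hk2, hk3⟩ : ∃ k1, k1 < m ∧ (k < m → k1 = k) ∧ (k = m → k1 = m - 1) := by
    by_cases h : k < m
    · exact ⟨k, h, fun _ => rfl, fun h' => by omega⟩
    · exact ⟨m - 1, by omega, fun h' => absurd h' h, fun _ => rfl⟩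
  have hM1 : Hy R.map e0 k1 m u :=
    { hk := hk1
      hm := by
        apply SimpleGraph.Dart.ext
        rw [hfst, he0, hi]
      hmin := by
        intro j hj hjm heq
        have h1 := congrArg (fun d : H.Dart => d.toProd.1) heq
        simp only [hfst, he0] at h1
        have h2 := hcast j hjm (hinj h1)
        omega
      hw := by
        intro d hd
        exact hu d.snd (hd ▸ d.adj) }
  have hM2 := hy2 hM1 (w' := v) (by
    intro d hd
    exact hv d.snd (hd ▸ d.adj)) huv
  -- edges of the final map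
  let E : V → V → Prop := fun a b => ∃ d, (star hM2).t d = a ∧ (star hM2).t ((star hM2).ι d) = b
  have Esymm : ∀ a b, E a b → E b a := by
    rintro a b ⟨d, h1, h2⟩
    exact ⟨(star hM2).ι d, h2, by rw [(star hM2).inv, h1]⟩
  have E1 : ∀ d, E ((star hM1).t d) ((star hM1).t ((star hM1).ι d)) :=
    fun d => ⟨Sum.inl d, rfl, rfl⟩
  have E0 : ∀ a b, H.Adj a b → E a b := fun a b hab => E1 (Sum.inl ⟨(a, b), hab⟩)
  have EA : ∀ a ∈ A, E a u := by
    intro a ha
    obtain ⟨t, ht, rfl⟩ := hAk a ha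
    have key : ∀ s : ℕ, s ≤ k1 → E (c (i + s)) u := by
      intro s hs
      have h1 := E1 (Sum.inr (Sum.inl ⟨s, by omega⟩))
      have h2 : (star hM1).t (Sum.inr (Sum.inl ⟨s, by omega⟩)) = c (i + s) := by
        show (ff R.map e0 s).toProd.1 = _
        rw [hfst]
      rw [h2] at h1
      exact h1
    by_cases h1 : t ≤ k1
    · exact key t h1
    · have h2 : t = m := by
        by_contra h3
        by_cases h4 : k < m
        · have := hk2 h4; omega
        · have := hk3 (by omega); omega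
      rw [h2, hi]
      have h3 := key 0 (by omega)
      rwa [Nat.cast_zero, add_zero] at h3
  have EV : ∀ j : ℕ, j ≤ m - k1 + 1 →
      E ((star hM1).t (ff (star hM1) (Sum.inl (ff R.map e0 k1)) j)) v := by
    intro j hj
    exact ⟨Sum.inr (Sum.inl ⟨j, by omega⟩), rfl, rfl⟩
  have Euv : E u v := by
    have h1 := EV (m - k1 + 1) (by omega)
    rw [face3] at h1
    exact h1
  have EB : ∀ b ∈ B, E b v := by
    intro b hb
    obtain ⟨t, ht1, ht2, rfl⟩ := hBk b hb
    by_cases h1 : t = m
    · have h2 := EV (m - k1) (by omega)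
      rw [face2] at h2
      have h3 : (star hM1).t (Sum.inr (Sum.inl 0)) = c i := by
        show (ff R.map e0 0).toProd.1 = _
        rw [hfst, Nat.cast_zero, add_zero]
      rw [h3] at h2
      rw [h1, hi]
      exact h2
    · have h2 : k1 = k := hk2 (by omega)
      have h3 := EV (t - k1) (by omega)
      rw [face1 hM1 (t - k1) (by omega)] at h3
      have h4 : k1 + (t - k1) = t := by omega
      rw [h4] at h3
      have h5 : (star hM1).t (Sum.inl (ff R.map e0 t)) = c (i + t) := by
        show (ff R.map e0 t).toProd.1 = _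
        rw [hfst]
      rw [h5] at h3
      exact h3
  refine Pool.Agent.Helper35.PM.M_MIN.main _ V V _ (star hM2) _ (fun x => {x}) le_rfl ?_ ?_ ?_ ?_
  · intro x; exact ⟨x, rfl⟩
  · intro x y hxy
    exact Set.disjoint_singleton.2 hxy
  · rintro x a rfl b rfl
    exact Relation.ReflTransGen.refl
  · intro x y hxy
    have hE : E x y := by
      rcases hxy with (h1 | ⟨rfl, h1, h2⟩ | ⟨rfl, h1, h2⟩) | ⟨rfl, h1, h2⟩ | ⟨rfl, h1, h2⟩
      · exact E0 x y h1
      · exact Esymm _ _ (EA y h1)
      · exact EA x h1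
      · rcases h1 with rfl | h1
        · exact Esymm _ _ Euv
        · exact Esymm _ _ (EB y h1)
      · rcases h1 with rfl | h1
        · exact Euv
        · exact EB x h1
    obtain ⟨d, h1, h2⟩ := hE
    exact ⟨d, h1, h2⟩

end Pool.Agent.Helper90.NK
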